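import Mathlib

set_option autoImplicit false
open Finset

namespace Pool.Agent.Results.MP_4e7634_nt.Binary

/-- number of partitions of `n` into powers of two -/
noncomputable def bin (n : ℕ) : ℕ :=
  {P : Nat.Partition n | ∀ i ∈ P.parts, ∃ e : ℕ, i = 2 ^ e}.ncard

/-- `w` extended to negative indices by the constant `c` -/
def ext (w : ℕ → ℕ) (c : ℕ) (m : ℤ) : ℕ := if m < 0 then c else w m.toNat

def B (n : ℕ) : Set (Multiset ℕ) := {s | s.sum = n ∧ ∀ i ∈ s, ∃ e : ℕ, i = 2 ^ e}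

lemma B_eq (n : ℕ) :
    B n = Nat.Partition.parts '' {P : Nat.Partition n | ∀ i ∈ P.parts, ∃ e : ℕ, i = 2 ^ e} := by
  ext s
  constructor
  · rintro ⟨h1, h2⟩
    refine ⟨⟨s, fun {i} hi => ?_, h1⟩, h2, rfl⟩
    obtain ⟨e, rfl⟩ := h2 i hi
    positivity
  · rintro ⟨P, hP, rfl⟩
    exact ⟨P.parts_sum, hP⟩

lemma B_fin (n : ℕ) : (B n).Finite := by
  rw [B_eq]; exact (Set.toFinite _).image _

lemma bin_eq (n : ℕ) : bin n = (B n).ncard := by
  rw [B_eq, Set.ncard_image_of_injective _ (fun a b h => Nat.Partition.ext h)]; rfl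

lemma B_one (n : ℕ) : B (n + 1) ∩ {s | 1 ∈ s} = (Multiset.cons 1) '' B n := by
  ext s
  constructor
  · rintro ⟨⟨h1, h2⟩, h3⟩
    obtain ⟨t, rfl⟩ := Multiset.exists_cons_of_mem h3
    refine ⟨t, ⟨?_, fun i hi => h2 i (Multiset.mem_cons_of_mem hi)⟩, rfl⟩
    rw [Multiset.sum_cons] at h1; omega
  · rintro ⟨t, ⟨h1, h2⟩, rfl⟩
    refine ⟨⟨by rw [Multiset.sum_cons]; omega, fun i hi => ?_⟩, Multiset.mem_cons_self _ _⟩
    rcases Multiset.mem_cons.1 hi with rfl | hi
    · exact ⟨0, rfl⟩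
    · exact h2 i hi

lemma halve (s : Multiset ℕ) (h2 : ∀ i ∈ s, ∃ e : ℕ, i = 2 ^ e) (h3 : 1 ∉ s) :
    ∃ t : Multiset ℕ, (∀ i ∈ t, ∃ e : ℕ, i = 2 ^ e) ∧ s = t.map (2 * ·) := by
  refine ⟨s.map (· / 2), ?_, ?_⟩
  · intro i hi
    obtain ⟨j, hj, rfl⟩ := Multiset.mem_map.1 hi
    obtain ⟨e, rfl⟩ := h2 j hj
    cases e with
    | zero => exact absurd hj h3
    | succ e => exact ⟨e, by rw [pow_succ]; simp⟩
  · rw [Multiset.map_map]
    conv_lhs => rw [← Multiset.map_id s]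
    apply Multiset.map_congr rfl
    intro j hj
    obtain ⟨e, rfl⟩ := h2 j hj
    cases e with
    | zero => exact absurd hj h3
    | succ e => simp [pow_succ]; ring

lemma B_even (n : ℕ) : B (2 * n) \ {s | 1 ∈ s} = (Multiset.map (2 * ·)) '' B n := by
  ext s
  constructor
  · rintro ⟨⟨h1, h2⟩, h3⟩
    obtain ⟨t, ht, rfl⟩ := halve s h2 h3
    refine ⟨t, ⟨?_, ht⟩, rfl⟩
    rw [Multiset.sum_map_mul_left] at h1
    simpa using h1
  · rintro ⟨t, ⟨h1, h2⟩, rfl⟩
    refine ⟨⟨by rw [Multiset.sum_map_mul_left]; simp [h1], fun i hi => ?_⟩, fun hi => ?_⟩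
    · obtain ⟨j, hj, rfl⟩ := Multiset.mem_map.1 hi
      obtain ⟨e, rfl⟩ := h2 j hj
      exact ⟨e + 1, by ring⟩
    · obtain ⟨j, hj, h⟩ := Multiset.mem_map.1 hi
      omega

lemma B_odd (n : ℕ) : B (2 * n + 1) \ {s | 1 ∈ s} = ∅ := by
  ext s
  simp only [Set.mem_empty_iff_false, iff_false]
  rintro ⟨⟨h1, h2⟩, h3⟩
  obtain ⟨t, ht, rfl⟩ := halve s h2 h3
  rw [Multiset.sum_map_mul_left] at h1
  omega

lemma bin_odd (n : ℕ) : bin (2 * n + 1) = bin (2 * n) := by
  rw [bin_eq, bin_eq, ← Set.ncard_inter_add_ncard_diff_eq_ncard (B (2 * n + 1)) {s | 1 ∈ s} (B_fin _),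
    B_one, B_odd, Set.ncard_image_of_injective _ (fun a b h => (Multiset.cons_inj_right 1).1 h)]
  simp

lemma bin_even (n : ℕ) : bin (2 * n + 2) = bin (2 * n + 1) + bin (n + 1) := by
  rw [bin_eq, bin_eq, bin_eq,
    ← Set.ncard_inter_add_ncard_diff_eq_ncard (B (2 * n + 2)) {s | 1 ∈ s} (B_fin _),
    B_one, show 2 * n + 2 = 2 * (n + 1) by ring, B_even,
    Set.ncard_image_of_injective _ (fun a b h => (Multiset.cons_inj_right 1).1 h),
    Set.ncard_image_of_injective _ (Multiset.map_injective (fun a b h => by simpa using h))]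

lemma bin_zero : bin 0 = 1 := by
  rw [bin_eq]
  have : B 0 = {0} := by
    ext s
    simp only [B, Set.mem_ofPred_eq, Set.mem_singleton_iff]
    constructor
    · rintro ⟨h1, h2⟩
      rw [Multiset.sum_eq_zero_iff] at h1
      apply Multiset.eq_zero_of_forall_notMem
      intro i hi
      obtain ⟨e, he⟩ := h2 i hi
      have := h1 i hi
      have : 0 < 2 ^ e := by positivity
      omega
    · rintro rfl; simp
  rw [this]; simp

lemma bin_rec (n : ℕ) : bin (n + 2) = bin n + bin ((n + 2) / 2) := by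
  rcases Nat.even_or_odd' n with ⟨m, rfl | rfl⟩
  · rw [bin_even, bin_odd, show (2 * m + 2) / 2 = m + 1 by omega]
  · rw [show 2 * m + 1 + 2 = 2 * (m + 1) + 1 by ring, bin_odd, show 2 * (m + 1) = 2 * m + 2 by ring,
      bin_even, show (2 * m + 2 + 1) / 2 = m + 1 by omega]

lemma bin_mono : Monotone bin := by
  apply monotone_nat_of_le_succ
  intro n
  rcases Nat.even_or_odd' n with ⟨m, rfl | rfl⟩
  · rw [bin_odd]
  · rw [bin_even]; omega

lemma bin_six : bin 6 = 6 := by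
  have h0 := bin_zero
  have h1 := bin_odd 0
  have h2 := bin_rec 0
  have h3 := bin_odd 1
  have h4 := bin_rec 2
  have h6 := bin_rec 4
  norm_num at h1 h2 h3 h4 h6
  omega

lemma bin_ge (n : ℕ) : 3 * n ≤ bin n + 40 := by
  induction n using Nat.strong_induction_on with
  | _ n ih =>
    by_cases h : n ≤ 13
    · omega
    · obtain ⟨m, rfl⟩ : ∃ m, n = m + 2 := ⟨n - 2, by omega⟩
      have h1 := ih m (by omega)
      have h2 := bin_rec m
      have h3 : bin 6 ≤ bin ((m + 2) / 2) := bin_mono (by omega)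
      rw [bin_six] at h3
      omega

noncomputable def W (m : ℕ) : ℕ := if m % 2 = 1 then bin (m / 2) else max 1 (2 * ((m / 2 + 1) / 2))

theorem result : ∃ (p q : ℕ) (u : Fin p → ℕ) (v : Fin q → ℕ) (c k : ℕ) (w : ℕ → ℕ) (a b : ℕ),
    (∀ i, 0 < u i) ∧ (∀ j, 0 < v j) ∧ (∀ n, 0 < w n) ∧
    (∀ n : ℕ, k ≤ n → w n = ∑ i, ext w c ((n : ℤ) - ext w c ((n : ℤ) - u i))
        + ∑ j, ext w c ((n : ℤ) - v j)) ∧
    1 ≤ a ∧ ∀ n, w (a * n + b) = bin n := by
  refine ⟨1, 1, fun _ => 1, fun _ => 4, 2, 100, W, 2, 1, by simp, by simp, ?_, ?_, by norm_num, ?_⟩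
  · intro n
    unfold W
    split_ifs
    · exact lt_of_lt_of_le (by rw [bin_zero]; norm_num) (bin_mono (Nat.zero_le _))
    · omega
  · intro n hn
    simp only [Finset.univ_unique, Finset.sum_singleton]
    have e1 : ext W 2 ((n : ℤ) - (1 : ℕ)) = W (n - 1) := by
      unfold ext; rw [if_neg (by omega)]; congr 1; omega
    have e4 : ext W 2 ((n : ℤ) - (4 : ℕ)) = W (n - 4) := by
      unfold ext; rw [if_neg (by omega)]; congr 1; omega
    rw [e1, e4]
    rcases Nat.even_or_odd' n with ⟨m, rfl | rfl⟩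
    · have h1 : W (2 * m - 1) = bin (m - 1) := by
        unfold W; rw [if_pos (by omega)]; congr 1; omega
      have h2 := bin_ge (m - 1)
      have h3 : ext W 2 (((2 * m : ℕ) : ℤ) - W (2 * m - 1)) = 2 := by
        unfold ext; rw [if_pos (by rw [h1]; omega)]
      rw [h3]
      unfold W
      rw [if_neg (by omega), if_neg (by omega)]
      omega
    · have h1 : W (2 * m + 1 - 1) = 2 * ((m + 1) / 2) := by
        unfold W; rw [if_neg (by omega)]; omega
      have h3 : ext W 2 (((2 * m + 1 : ℕ) : ℤ) - W (2 * m + 1 - 1)) = bin (m / 2) := by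
        rw [h1]
        unfold ext
        rw [if_neg (by omega)]
        unfold W
        rw [if_pos (by omega)]; congr 1; omega
      rw [h3]
      obtain ⟨l, rfl⟩ : ∃ l, m = l + 2 := ⟨m - 2, by omega⟩
      unfold W
      rw [if_pos (by omega), if_pos (by omega), show (2 * (l + 2) + 1) / 2 = l + 2 by omega,
        show (2 * (l + 2) + 1 - 4) / 2 = l by omega, bin_rec]
      ring
  · intro n
    unfold W
    rw [if_pos (by omega)]; congr 1; omega

end Pool.Agent.Results.MP_4e7634_nt.Binary
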